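import Mathlib

/-!
Tempered fundamental groups: the étale part and the topological part.
-/

namespace Pool.Agent.U644.TF

universe u v

/-- A group with an abelian subgroup of finite index. -/
def VirtAb (G : Type*) [Group G] : Prop :=
  ∃ A : Subgroup G, A.FiniteIndex ∧ ∀ a ∈ A, ∀ b ∈ A, a * b = b * a

/-! ### Residual finiteness -/

lemma rf_equiv {G G' : Type*} [Group G] [Group G'] (e : G ≃* G') (h : Group.ResiduallyFinite G) :
    Group.ResiduallyFinite G' := by
  rw [Group.residuallyFinite_iff_exists_finiteIndex] at h ⊢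
  intro g hg
  obtain ⟨H, hH, hgH⟩ := h (e.symm g) (by
    intro h0
    apply hg
    have := congrArg e h0
    simpa using this)
  refine ⟨H.comap e.symm.toMonoidHom, ⟨?_⟩, hgH⟩
  rw [Subgroup.index_comap_of_surjective H (f := e.symm.toMonoidHom) e.symm.surjective]
  exact hH.index_ne_zero

lemma rf_pi_int (j : Type) [Fintype j] : Group.ResiduallyFinite (j → Multiplicative ℤ) := by
  apply Group.residuallyFinite_of_forall_exists_finite_monoidHom
  intro g hg
  obtain ⟨i, hi⟩ := Function.ne_iff.1 hg
  set z : ℤ := Multiplicative.toAdd (g i) with hz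
  have hz0 : z ≠ 0 := by
    intro h0
    apply hi
    have : g i = Multiplicative.ofAdd z := rfl
    rw [this, h0]
    rfl
  refine ⟨Multiplicative (ZMod (z.natAbs + 1)), inferInstance, ?_,
    (AddMonoidHom.toMultiplicative (Int.castAddHom (ZMod (z.natAbs + 1)))).comp
      (Pi.evalMonoidHom _ i), ?_⟩
  · haveI : NeZero (z.natAbs + 1) := ⟨by omega⟩
    infer_instance
  · intro h0
    have h1 : ((z : ℤ) : ZMod (z.natAbs + 1)) = 0 := h0
    rw [ZMod.intCast_zmod_eq_zero_iff_dvd] at h1
    have h2 := Int.natAbs_dvd_natAbs.2 h1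
    have h3 := Nat.le_of_dvd (Int.natAbs_pos.2 hz0) h2
    have h4 : ((z.natAbs + 1 : ℕ) : ℤ).natAbs = z.natAbs + 1 := Int.natAbs_natCast _
    omega

lemma rf_fg_comm (A : Type*) [CommGroup A] [Group.FG A] : Group.ResiduallyFinite A := by
  obtain ⟨ι, j, _, _, p, hp, e, ⟨E⟩⟩ := CommGroup.equiv_free_prod_prod_multiplicative_zmod A
  have : ∀ i, NeZero (p i ^ e i) := fun i => ⟨pow_ne_zero _ (hp i).ne_zero⟩
  have : Finite ((i : ι) → Multiplicative (ZMod (p i ^ e i))) := by
    have : ∀ i, Finite (Multiplicative (ZMod (p i ^ e i))) := fun i => inferInstance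
    infer_instance
  have := rf_pi_int j
  exact rf_equiv E.symm inferInstance

/-- Finitely generated virtually abelian groups are residually finite. -/
theorem rf_of_virtAb (G : Type*) [Group G] [Group.FG G] (h : VirtAb G) :
    Group.ResiduallyFinite G := by
  obtain ⟨A, hA, hcomm⟩ := h
  have := hA
  have : Group.FG A := Subgroup.fg_of_index_ne_zero A
  let _ : CommGroup A := { (inferInstance : Group A) with
    mul_comm := fun a b => Subtype.ext (hcomm a a.2 b b.2) }
  have hrf : Group.ResiduallyFinite A := rf_fg_comm A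
  rw [Group.residuallyFinite_iff_exists_finiteIndex] at hrf ⊢
  intro g hg
  by_cases hgA : g ∈ A
  · obtain ⟨K, hK, hgK⟩ := hrf ⟨g, hgA⟩ (by
      intro h0
      exact hg (congrArg Subtype.val h0))
    refine ⟨K.map A.subtype, ?_, ?_⟩
    · constructor
      have h1 : (K.map A.subtype).index = K.index * A.index := Subgroup.index_map_subtype K
      rw [h1]
      exact Nat.mul_ne_zero hK.index_ne_zero hA.index_ne_zero
    · rintro ⟨x, hx, hxg⟩
      apply hgK
      have : x = ⟨g, hgA⟩ := Subtype.ext hxg
      rwa [← this]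
  · exact ⟨A, hA, hgA⟩

end Pool.Agent.U644.TF
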