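import Pool.Agent.U644.TF.Core

/-!
Tempered fundamental groups.
-/

namespace Pool.Agent.U644.TF

universe u v w

/-- The tempered fundamental group `G` of a smooth projective variety `X`, with the subgroups of the
connected finite étale coverings of `X` and the topological fundamental groups of these coverings. -/
structure Temp where
  /-- the tempered fundamental group -/
  G : Type u
  [grp : Group G]
  /-- the subgroups of the (pointed, connected) finite étale coverings -/
  cov : Set (Subgroup G)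
  /-- the topological fundamental group of (the Berkovich space of) the covering -/
  top : Subgroup G → Type v
  [tgrp : ∀ H, Group (top H)]
  /-- the natural homomorphism -/
  q : ∀ H : Subgroup G, H →* top H
  q_surj : ∀ H ∈ cov, Function.Surjective (q H)
  top_fg : ∀ H ∈ cov, Group.FG (top H)
  univ_mem : ⊤ ∈ cov
  cov_fin : ∀ H ∈ cov, H.FiniteIndex
  cov_inf : ∀ H ∈ cov, ∀ K ∈ cov, H ⊓ K ∈ cov
  cov_core : ∀ H ∈ cov, H.normalCore ∈ cov
  cov_pre : ∀ H ∈ cov, ∀ K : Subgroup (top H), K.FiniteIndex →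
    (K.comap (q H)).map H.subtype ∈ cov
  sep : ∀ g : G, g ≠ 1 → ∃ H ∈ cov, ∀ hg : g ∈ H, q H ⟨g, hg⟩ ≠ 1

attribute [instance] Temp.grp Temp.tgrp

/-- The étale fundamental group, the completion of `G` with respect to the subgroups of the finite
étale coverings, is virtually abelian. -/
def Temp.EtVirtAb (T : Temp.{u, v}) : Prop :=
  ∃ H ∈ T.cov, ∀ a ∈ H, ∀ b ∈ H, ∀ K ∈ T.cov, a * b * a⁻¹ * b⁻¹ ∈ K

variable (T : Temp.{u, v})

open Pointwise in
lemma etVirtAb_of_virtAb (h : VirtAb T.G) : T.EtVirtAb := by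
  classical
  obtain ⟨A, hA, hcomm⟩ := h
  -- choose `K₀` with `A K₀` of maximal index
  let S : Set ℕ := {n | ∃ K ∈ T.cov, K.Normal ∧ (A ⊔ K).index = n}
  have hSne : S.Nonempty := ⟨_, ⊤, T.univ_mem, inferInstance, rfl⟩
  have hSb : ∀ n ∈ S, n ≤ A.index := by
    rintro n ⟨K, _, _, rfl⟩
    exact Nat.le_of_dvd (Nat.pos_of_ne_zero hA.index_ne_zero)
      (Subgroup.index_dvd_of_le le_sup_left)
  have hfin : S.Finite := (Set.finite_Iic A.index).subset fun n hn => hSb n hn
  obtain ⟨n, hn, hmax⟩ := hfin.exists_maximal hSne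
  obtain ⟨K₀, hK₀, hN₀, hn₀⟩ := hn
  refine ⟨K₀, hK₀, fun a ha b hb K hK => ?_⟩
  -- the normal core of the intersection
  set L := (K ⊓ K₀).normalCore with hL
  have hLcov : L ∈ T.cov := T.cov_core _ (T.cov_inf _ hK _ hK₀)
  have hLn : L.Normal := Subgroup.normalCore_normal _
  have hLK : L ≤ K := (Subgroup.normalCore_le _).trans inf_le_left
  have hLK₀ : L ≤ K₀ := (Subgroup.normalCore_le _).trans inf_le_right
  have hle : A ⊔ L ≤ A ⊔ K₀ := sup_le_sup_left hLK₀ A
  have hidx : (A ⊔ L).index ≤ (A ⊔ K₀).index := by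
    have h1 : (A ⊔ L).index ∈ S := ⟨L, hLcov, hLn, rfl⟩
    rcases le_total n (A ⊔ L).index with h2 | h2
    · have := hmax h1 h2
      omega
    · omega
  have hfinL : (A ⊔ L).FiniteIndex := Subgroup.finiteIndex_of_le (H := A) le_sup_left
  have heq : A ⊔ K₀ ≤ A ⊔ L := by
    have h3 : (A ⊔ L).relIndex (A ⊔ K₀) * (A ⊔ K₀).index = (A ⊔ L).index :=
      Subgroup.relIndex_mul_index hle
    have h4 : (A ⊔ K₀).index ≠ 0 := by
      have : (A ⊔ K₀).FiniteIndex := Subgroup.finiteIndex_of_le (H := A) le_sup_left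
      exact this.index_ne_zero
    have h5 : (A ⊔ L).relIndex (A ⊔ K₀) = 1 := by
      have h6 : (A ⊔ L).relIndex (A ⊔ K₀) ≠ 0 := by
        intro h0
        rw [h0, zero_mul] at h3
        exact hfinL.index_ne_zero h3.symm
      have h7 : (A ⊔ L).relIndex (A ⊔ K₀) * (A ⊔ K₀).index ≤ 1 * (A ⊔ K₀).index := by
        rw [h3, one_mul]
        exact hidx
      have h8 := Nat.le_of_mul_le_mul_right h7 (Nat.pos_of_ne_zero h4)
      omega
    exact Subgroup.relIndex_eq_one.1 h5
  have dec : ∀ x ∈ K₀, ∃ x' ∈ A, ∃ k ∈ L, x = x' * k := by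
    intro x hx
    have h1 : x ∈ A ⊔ L := heq (Subgroup.mem_sup_right hx)
    have h2 : x ∈ (A : Set T.G) * (L : Set T.G) := by
      rw [← Subgroup.mul_normal A L]
      exact h1
    obtain ⟨x', hx', k, hk, hxk⟩ := Set.mem_mul.1 h2
    exact ⟨x', hx', k, hk, hxk.symm⟩
  obtain ⟨a', ha', k, hk, rfl⟩ := dec a ha
  obtain ⟨b', hb', l, hl, rfl⟩ := dec b hb
  apply hLK
  have h9 : (QuotientGroup.mk' L) (a' * k * (b' * l) * (a' * k)⁻¹ * (b' * l)⁻¹) = 1 := by
    have hk1 : (QuotientGroup.mk' L) k = 1 := (QuotientGroup.eq_one_iff k).2 hk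
    have hl1 : (QuotientGroup.mk' L) l = 1 := (QuotientGroup.eq_one_iff l).2 hl
    have h10 : a' * b' * a'⁻¹ * b'⁻¹ = 1 := by
      rw [hcomm a' ha' b' hb']
      group
    have h11 : (QuotientGroup.mk' L) (a' * b' * a'⁻¹ * b'⁻¹) = 1 := by
      rw [h10, map_one]
    simp only [map_mul, map_inv, hk1, hl1, mul_one] at h11 ⊢
    exact h11
  exact (QuotientGroup.eq_one_iff _).1 h9

lemma top_virtAb_of_virtAb (h : VirtAb T.G) (H : Subgroup T.G) (hH : H ∈ T.cov) :
    VirtAb (T.top H) := by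
  obtain ⟨A, hA, hcomm⟩ := h
  refine ⟨(A.subgroupOf H).map (T.q H), ⟨?_⟩, ?_⟩
  · have h1 : (A.subgroupOf H).index ≠ 0 := by
      have h2 : (A.subgroupOf H).FiniteIndex := inferInstance
      exact h2.index_ne_zero
    have h3 : ((A.subgroupOf H).map (T.q H)).index ∣ (A.subgroupOf H).index :=
      Subgroup.index_map_dvd _ (T.q_surj H hH)
    intro h0
    rw [h0, zero_dvd_iff] at h3
    exact h1 h3
  · rintro _ ⟨a, ha, rfl⟩ _ ⟨b, hb, rfl⟩
    rw [← map_mul, ← map_mul]
    congr 1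
    exact Subtype.ext (hcomm a ha b hb)

lemma virtAb_of_parts (h : T.EtVirtAb) (hrf : ∀ H ∈ T.cov, Group.ResiduallyFinite (T.top H)) :
    VirtAb T.G := by
  obtain ⟨H, hH, hcomm⟩ := h
  refine ⟨H, T.cov_fin H hH, fun a ha b hb => ?_⟩
  set c := a * b * a⁻¹ * b⁻¹ with hc
  have hc1 : c = 1 := by
    by_contra hne
    obtain ⟨K, hK, hsep⟩ := T.sep c hne
    have hcK : c ∈ K := hcomm a ha b hb K hK
    have h1 := hsep hcK
    obtain ⟨M, hM, hcM⟩ := Group.residuallyFinite_iff_exists_finiteIndex.1 (hrf K hK) _ h1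
    have h2 := hcomm a ha b hb _ (T.cov_pre K hK M hM)
    obtain ⟨x, hx, hxc⟩ := h2
    apply hcM
    have h3 : x = ⟨c, hcK⟩ := Subtype.ext hxc
    rw [← h3]
    exact hx
  have h4 : a * b * a⁻¹ * b⁻¹ = 1 := hc1
  calc a * b = (a * b * a⁻¹ * b⁻¹) * (b * a) := by group
    _ = b * a := by rw [h4, one_mul]

/-- One variety. -/
theorem temp_iff : VirtAb T.G ↔ T.EtVirtAb ∧ ∀ H ∈ T.cov, Group.ResiduallyFinite (T.top H) := by
  constructor
  · intro h
    refine ⟨etVirtAb_of_virtAb T h, fun H hH => ?_⟩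
    have := T.top_fg H hH
    exact rf_of_virtAb _ (top_virtAb_of_virtAb T h H hH)
  · rintro ⟨h1, h2⟩
    exact virtAb_of_parts T h1 h2

/-- A class of varieties (such as the `K`-analytically special ones), stable under finite étale
coverings, with their tempered fundamental groups. -/
structure Family where
  /-- the varieties of the class -/
  X : Type w
  /-- their tempered fundamental groups -/
  temp : X → Temp.{u, v}
  covering : ∀ (x : X), ∀ H ∈ (temp x).cov, ∃ y : X,
    Nonempty ((temp y).top ⊤ ≃* (temp x).top H)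

variable (F : Family.{u, v, w})

/-- Q1 for the class. -/
def Family.Q : Prop := ∀ x, VirtAb (F.temp x).G

/-- The étale fundamental groups are virtually abelian. -/
def Family.Etale : Prop := ∀ x, (F.temp x).EtVirtAb

/-- The topological fundamental groups are residually finite. -/
def Family.TopRF : Prop := ∀ x, Group.ResiduallyFinite ((F.temp x).top ⊤)

/-- The topological fundamental groups are virtually abelian. -/
def Family.TopVA : Prop := ∀ x, VirtAb ((F.temp x).top ⊤)

theorem family_iff : F.Q ↔ F.Etale ∧ F.TopRF := by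
  constructor
  · intro h
    exact ⟨fun x => ((temp_iff _).1 (h x)).1,
      fun x => ((temp_iff _).1 (h x)).2 ⊤ (F.temp x).univ_mem⟩
  · rintro ⟨h1, h2⟩ x
    refine (temp_iff _).2 ⟨h1 x, fun H hH => ?_⟩
    obtain ⟨y, ⟨e⟩⟩ := F.covering x H hH
    exact rf_equiv e (h2 y)

theorem family_iff' : F.Q ↔ F.Etale ∧ F.TopVA := by
  constructor
  · intro h
    exact ⟨fun x => ((temp_iff _).1 (h x)).1,
      fun x => top_virtAb_of_virtAb _ (h x) ⊤ (F.temp x).univ_mem⟩
  · rintro ⟨h1, h2⟩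
    refine (family_iff F).2 ⟨h1, fun x => ?_⟩
    have := (F.temp x).top_fg ⊤ (F.temp x).univ_mem
    exact rf_of_virtAb _ (h2 x)

end Pool.Agent.U644.TF
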